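import Mathlib
import Pool.Agent.Helper65.Torus

/-! A compact manifold of every dimension `n ≥ 3` without property (F): the torus. -/

namespace Pool.Agent.Results.MP_98cb65_gt.SmallOrbitFlows

/-- `T` has iterate displacement below `B`. -/
def DisplacementBelow {X : Type} [MetricSpace X] (T : X → X) (B : ℝ) : Prop :=
  ∀ x : X, ∀ ν : ℕ, 1 ≤ ν → dist (T^[ν] x) x < B

/-- Property (F). -/
def PropertyF (X : Type) [MetricSpace X] : Prop :=
  ∃ B : ℝ, 0 < B ∧ ∀ T : X → X, Continuous T → DisplacementBelow T B → ∃ x : X, T x = x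

theorem iter {n : ℕ} {Φ : ℝ → (Fin n → UnitAddCircle) → (Fin n → UnitAddCircle)}
    (h0 : ∀ x, Φ 0 x = x) (hadd : ∀ s t x, Φ (s + t) x = Φ s (Φ t x)) (τ : ℝ) (ν : ℕ) (x) :
    (Φ τ)^[ν] x = Φ (ν * τ) x := by
  induction ν with
  | zero => simp [h0]
  | succ k ih =>
    rw [Function.iterate_succ_apply', ih, ← hadd]
    congr 1
    push_cast
    ring

/-- **Negative answer to Q1, in every dimension `n ≥ 3`.**  The `n`-dimensional torus is a compact
connected manifold without property (F).  More precisely, for every `B > 0` it carries a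
continuous flow `Φ` which moves no point further than `B` at any time (past or future) and whose
maps `Φ t` for small `t > 0` have no fixed point.  Moreover the product of any metric space
with the three-dimensional torus does not have property (F). -/
theorem result :
    (∀ n : ℕ, 3 ≤ n →
      CompactSpace (Fin n → UnitAddCircle) ∧ ConnectedSpace (Fin n → UnitAddCircle) ∧
      Nonempty (ChartedSpace (EuclideanSpace ℝ (Fin n)) (Fin n → UnitAddCircle)) ∧
      ¬ PropertyF (Fin n → UnitAddCircle) ∧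
      ∀ B : ℝ, 0 < B →
        ∃ Φ : ℝ → (Fin n → UnitAddCircle) → (Fin n → UnitAddCircle),
          (Continuous fun p : ℝ × (Fin n → UnitAddCircle) => Φ p.1 p.2) ∧
          (∀ x, Φ 0 x = x) ∧ (∀ s t x, Φ (s + t) x = Φ s (Φ t x)) ∧
          (∀ t x, dist (Φ t x) x < B) ∧
          ∃ τ : ℝ, 0 < τ ∧ ∀ t, 0 < t → t ≤ τ → ∀ x, Φ t x ≠ x) ∧
    ∀ (X : Type) [MetricSpace X], ¬ PropertyF (X × (Fin 3 → UnitAddCircle)) := by
  constructor
  · intro n hn
    obtain ⟨m, rfl⟩ := Nat.exists_eq_add_of_le' hn
    refine ⟨inferInstance, inferInstance, Helper65.Torus.charted _, ?_, Helper65.Torus.main m⟩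
    rintro ⟨B, hB, h⟩
    obtain ⟨Φ, hc, h0, hadd, hd, τ, hτ, hfix⟩ := Helper65.Torus.main m B hB
    obtain ⟨x, hx⟩ := h (Φ τ) (hc.comp (continuous_const.prodMk continuous_id)) (by
      intro x ν _
      rw [iter h0 hadd]
      exact hd _ _)
    exact hfix τ hτ le_rfl x hx
  · rintro X _ ⟨B, hB, h⟩
    obtain ⟨Φ, hc, h0, hadd, hd, τ, hτ, hfix⟩ := Helper65.Torus.main 0 B hB
    have hT : Continuous fun p : X × (Fin 3 → UnitAddCircle) => (p.1, Φ τ p.2) :=
      continuous_fst.prodMk (hc.comp (continuous_const.prodMk continuous_snd))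
    obtain ⟨x, hx⟩ := h (fun p => (p.1, Φ τ p.2)) hT (by
      intro x ν _
      have h1 : ∀ ν : ℕ, (fun p : X × (Fin 3 → UnitAddCircle) => (p.1, Φ τ p.2))^[ν] x =
          (x.1, (Φ τ)^[ν] x.2) := by
        intro ν
        induction ν with
        | zero => rfl
        | succ k ih => rw [Function.iterate_succ_apply', ih, Function.iterate_succ_apply']
      rw [h1, iter h0 hadd, Prod.dist_eq, dist_self]
      exact max_lt hB (hd _ _))
    exact hfix τ hτ le_rfl x.2 (congrArg Prod.snd hx)

end Pool.Agent.Results.MP_98cb65_gt.SmallOrbitFlows
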